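import Mathlib

/-!
Bonin asked whether a simple rank-r matroid without `U_{2,q+2}`-minor has at most
`[r choose k]_q` flats of rank `k`.  The answer is negative for `q = 7`, `r = 3`, `k = 2`:
the linear space on 45 points obtained from an elliptic semiplane with 45 blocks of size 7 by
adding its 15 parallel classes (of size 3) as lines has 60 lines, every line has at most 7
points and every point is on 8 lines, while `[3 choose 2]_7 = 57`.
-/

namespace Pool.Agent.Results.MP_62a602_co.BakerFlats

open Set Matroid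

set_option linter.unusedSectionVars false

/-- Gaussian binomial coefficient (ordinary binomial coefficient for `q = 1`). -/
noncomputable def gaussBinom (q r k : ℕ) : ℚ :=
  if q = 1 then (r.choose k : ℚ)
  else ∏ i ∈ Finset.range k, ((q : ℚ) ^ (r - i) - 1) / ((q : ℚ) ^ (i + 1) - 1)

/-- `N` is isomorphic to the uniform matroid of rank `a` on `n` elements: it has `n` elements and
its independent sets are the subsets of the ground set with at most `a` elements. -/
def IsUnif {α : Type} (N : Matroid α) (a n : ℕ) : Prop :=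
  N.E.encard = n ∧ ∀ I ⊆ N.E, (N.Indep I ↔ I.encard ≤ a)

/-- The class `U(q)`: no minor isomorphic to `U_{2,q+2}`. -/
def InU {α : Type} (q : ℕ) (M : Matroid α) : Prop :=
  ¬ ∃ N : Matroid α, N ≤m M ∧ IsUnif N 2 (q + 2)

/-- Simple matroids: no circuit has one or two elements. -/
def IsSimple {α : Type} (M : Matroid α) : Prop :=
  ∀ C, M.IsCircuit C → C.encard ≠ 1 ∧ C.encard ≠ 2

section linear

variable {P L : Type} [Finite P] (inc : P → L → Prop)

/-- points of a line -/
def pts (l : L) : Set P := {x | inc x l}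

/-- independent sets of the rank-3 matroid of a linear space -/
def Ind (I : Set P) : Prop := I.encard ≤ 3 ∧ ∀ l, I ⊆ pts inc l → I.encard ≤ 2

theorem ind_of_le_two {I : Set P} (h : I.encard ≤ 2) : Ind inc I :=
  ⟨h.trans (by norm_num), fun _ _ => h⟩

theorem ind_subset {I J : Set P} (hJ : Ind inc J) (hIJ : I ⊆ J) : Ind inc I := by
  refine ⟨(encard_le_encard hIJ).trans hJ.1, fun l hl => ?_⟩
  by_contra hc
  have h3 : (3 : ℕ∞) ≤ I.encard := by
    have : (2 : ℕ∞) < I.encard := not_le.1 hc
    have h := Order.add_one_le_of_lt this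
    have e : (2 : ℕ∞) + 1 = 3 := by norm_num
    rwa [e] at h
  have hIJ' : I = J := (toFinite I).eq_of_subset_of_encard_le hIJ (hJ.1.trans h3)
  subst hIJ'
  exact hc (hJ.2 l hl)

variable (h1 : ∀ x y : P, x ≠ y → ∃ l, inc x l ∧ inc y l)
  (h2 : ∀ x y : P, x ≠ y → ∀ l l', inc x l → inc y l → inc x l' → inc y l' → l = l')

include h1 h2 in
theorem ind_insert {I : Set P} {x y e : P} {l : L} (hI : I = {x, y}) (hxy : x ≠ y)
    (hx : inc x l) (hy : inc y l) (he : ¬ inc e l) : Ind inc (insert e I) := by
  subst hI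
  have hex : e ≠ x := by rintro rfl; exact he hx
  have hey : e ≠ y := by rintro rfl; exact he hy
  refine ⟨?_, fun l' hl' => ?_⟩
  · rw [encard_insert_of_notMem (by simp [hex, hey]), encard_pair hxy]; norm_num
  · exfalso
    have hx' : inc x l' := hl' (by simp)
    have hy' : inc y l' := hl' (by simp)
    have he' : inc e l' := hl' (by simp)
    exact he ((h2 x y hxy l l' hx hy hx' hy') ▸ he')

include h1 h2 in
theorem ind_aug {I J : Set P} (hI : Ind inc I) (hJ : Ind inc J) (hIJ : I.ncard < J.ncard) :
    ∃ e ∈ J, e ∉ I ∧ Ind inc (insert e I) := by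
  have hJ3 : J.ncard ≤ 3 := by
    have := hJ.1
    rw [← (toFinite J).cast_ncard_eq] at this
    exact_mod_cast this
  have hnot : ¬ J ⊆ I := fun h => absurd (ncard_le_ncard h (toFinite I)) (not_le.2 hIJ)
  rcases Nat.lt_or_ge I.ncard 2 with h | h
  · obtain ⟨e, heJ, heI⟩ := not_subset.1 hnot
    refine ⟨e, heJ, heI, ind_of_le_two inc ?_⟩
    rw [← (toFinite _).cast_ncard_eq, ncard_insert_of_notMem heI (toFinite I)]
    exact_mod_cast h
  · have hI2 : I.ncard = 2 := by omega
    have hJ3' : J.ncard = 3 := by omega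
    obtain ⟨x, y, hxy, hIxy⟩ := ncard_eq_two.1 hI2
    obtain ⟨l, hx, hy⟩ := h1 x y hxy
    have : ¬ J ⊆ pts inc l := by
      intro hs
      have := hJ.2 l hs
      rw [← (toFinite J).cast_ncard_eq, hJ3'] at this
      exact absurd this (by norm_num)
    obtain ⟨e, heJ, hel⟩ := not_subset.1 this
    refine ⟨e, heJ, ?_, ind_insert inc h1 h2 hIxy hxy hx hy hel⟩
    rw [hIxy]
    rintro (rfl | rfl)
    · exact hel hx
    · exact hel hy

/-- the rank-3 matroid of a linear space -/
def mat : Matroid P :=
  (IndepMatroid.ofFinite (E := (univ : Set P)) (toFinite _) (Ind inc)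
    (ind_of_le_two inc (by simp)) (fun _ _ hJ hIJ => ind_subset inc hJ hIJ)
    (fun _ _ hI hJ hIJ => ind_aug inc h1 h2 hI hJ hIJ) (fun _ _ => subset_univ _)).matroid

theorem mat_indep (I : Set P) : (mat inc h1 h2).Indep I ↔ Ind inc I := Iff.rfl

theorem mat_E : (mat inc h1 h2).E = univ := rfl

theorem mat_simple : IsSimple (mat inc h1 h2) := by
  intro C hC
  constructor <;> intro h <;> refine hC.not_indep ((mat_indep inc h1 h2 C).2 ?_) <;>
    refine ind_of_le_two inc ?_ <;> rw [h] <;> norm_num

theorem mat_rank (h3 : ∃ x y z : P, x ≠ y ∧ x ≠ z ∧ y ≠ z ∧ ∀ l, ¬ (inc x l ∧ inc y l ∧ inc z l)) :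
    (mat inc h1 h2).eRank = (3 : ℕ) := by
  obtain ⟨x, y, z, hxy, hxz, hyz, h⟩ := h3
  have hc : ({x, y, z} : Set P).encard = 3 := by
    rw [encard_insert_of_notMem (by simp [hxy, hxz]), encard_pair hyz]; norm_num
  have hi : (mat inc h1 h2).Indep {x, y, z} := by
    refine (mat_indep inc h1 h2 _).2 ⟨hc.le, fun l hl => ?_⟩
    exact absurd ⟨hl (by simp), hl (by simp), hl (by simp)⟩ (h l)
  obtain ⟨B, hB, hsub⟩ := hi.exists_isBase_superset
  rw [← hB.encard_eq_eRank]
  refine le_antisymm ?_ ?_
  · exact ((mat_indep inc h1 h2 B).1 hB.indep).1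
  · calc ((3 : ℕ) : ℕ∞) = ({x, y, z} : Set P).encard := by rw [hc]; rfl
      _ ≤ B.encard := encard_le_encard hsub

include h1 h2 in
theorem mat_flat (l : L) (h4 : ∃ x y, x ≠ y ∧ inc x l ∧ inc y l) :
    (mat inc h1 h2).IsFlat (pts inc l) ∧ (mat inc h1 h2).eRk (pts inc l) = (2 : ℕ) := by
  obtain ⟨x, y, hxy, hx, hy⟩ := h4
  have hrk : (mat inc h1 h2).eRk (pts inc l) = (2 : ℕ) := by
    obtain ⟨I, hI⟩ := (mat inc h1 h2).exists_isBasis (pts inc l) (subset_univ _)
    refine le_antisymm ?_ ?_
    · rw [← hI.encard_eq_eRk]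
      exact ((mat_indep inc h1 h2 I).1 hI.indep).2 l hI.subset
    · have hp : (mat inc h1 h2).Indep {x, y} :=
        (mat_indep inc h1 h2 _).2 (ind_of_le_two inc (by rw [encard_pair hxy]))
      calc ((2 : ℕ) : ℕ∞) = ({x, y} : Set P).encard := by rw [encard_pair hxy]; rfl
        _ = (mat inc h1 h2).eRk {x, y} := hp.eRk_eq_encard.symm
        _ ≤ _ := (mat inc h1 h2).eRk_mono (by rintro z (rfl | rfl); exacts [hx, hy])
  refine ⟨⟨fun I X hI hX => ?_, subset_univ _⟩, hrk⟩
  intro e heX
  by_contra hel
  have hI2 : I.encard = 2 := by rw [hI.encard_eq_eRk, hrk]; rfl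
  obtain ⟨a, b, hab, hIab⟩ := encard_eq_two.1 hI2
  have ha : inc a l := hI.subset (by simp [hIab])
  have hb : inc b l := hI.subset (by simp [hIab])
  have hins := ind_insert inc h1 h2 hIab hab ha hb hel
  have heI : e ∈ I := by
    have := hX.mem_of_insert_indep heX ((mat_indep inc h1 h2 _).2 hins)
    exact this
  exact hel (hI.subset heI)

include h1 h2 in
theorem mat_inU (q : ℕ) (hq : 1 ≤ q)
    (hl : ∀ l, (pts inc l).encard ≤ (q + 1 : ℕ))
    (hd : ∀ x, {l | inc x l}.encard ≤ (q + 1 : ℕ)) : InU q (mat inc h1 h2) := by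
  rintro ⟨N, ⟨C, D, rfl⟩, hcard, hun⟩
  set M := mat inc h1 h2 with hM
  obtain ⟨I, hI⟩ := M.exists_isBasis' C
  have hE : (M ／ C ＼ D).E = (univ \ C) \ D := rfl
  set E' := (M ／ C ＼ D).E with hE'
  -- independence in the minor
  have key : ∀ J ⊆ E', ((J.encard ≤ (2 : ℕ)) ↔ Ind inc (J ∪ I)) := by
    intro J hJ
    rw [← hun J hJ, Matroid.delete_indep_iff, hI.contract_indep_iff]
    have hJ' : J ⊆ (univ \ C) \ D := hJ
    constructor
    · rintro ⟨⟨h, _⟩, _⟩; exact h
    · intro h
      refine ⟨⟨h, ?_⟩, ?_⟩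
      · exact Set.disjoint_left.2 fun a ha haJ => (hJ' haJ).1.2 ha
      · exact Set.disjoint_left.2 fun a haJ ha => (hJ' haJ).2 ha
  have hdisj : ∀ a ∈ E', a ∉ I := fun a ha haI => by
    have : a ∈ (univ \ C) \ D := ha
    exact this.1.2 (hI.subset haI)
  have hbig : (q + 2 : ℕ) ≤ E'.ncard := by
    have : (E'.ncard : ℕ∞) = ((q + 2 : ℕ) : ℕ∞) := by
      rw [(toFinite E').cast_ncard_eq, hcard]
    exact le_of_eq (by exact_mod_cast this.symm)
  have hIc : I.encard ≤ 1 := by
    by_contra hc
    have h2I : (2 : ℕ∞) ≤ I.encard := by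
      have : (1 : ℕ∞) < I.encard := not_le.1 hc
      have h := Order.add_one_le_of_lt this
      have e : (1 : ℕ∞) + 1 = 2 := by norm_num
      rwa [e] at h
    obtain ⟨a, ha, b, hb, hab⟩ := (one_lt_ncard (toFinite E')).1 (by omega : 1 < E'.ncard)
    have h := (key {a, b} (by rintro z (rfl | rfl); exacts [ha, hb])).1
      (by rw [encard_pair hab]; rfl)
    have hd' : Disjoint ({a, b} : Set P) I := by
      rw [Set.disjoint_left]; rintro z (rfl | rfl); exacts [hdisj _ ha, hdisj _ hb]
    have h4 : (4 : ℕ∞) ≤ ({a, b} ∪ I : Set P).encard := by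
      rw [encard_union_eq hd', encard_pair hab]
      calc (4 : ℕ∞) = 2 + 2 := by norm_num
        _ ≤ 2 + I.encard := by gcongr
    exact absurd (h4.trans h.1) (by norm_num)
  have hIcases : I = ∅ ∨ ∃ c, I = {c} := by
    rcases (encard_le_one_iff_eq.1 hIc) with h | h
    · exact Or.inl h
    · exact Or.inr h
  rcases hIcases with rfl | ⟨c, rfl⟩
  · -- all elements of E' are on one line
    obtain ⟨a, ha, b, hb, hab⟩ := (one_lt_ncard (toFinite E')).1 (by omega : 1 < E'.ncard)
    obtain ⟨l, hal, hbl⟩ := h1 a b hab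
    have hsub : E' ⊆ pts inc l := by
      intro z hz
      by_contra hzl
      have hza : z ≠ a := by rintro rfl; exact hzl hal
      have hzb : z ≠ b := by rintro rfl; exact hzl hbl
      have hins := ind_insert inc h1 h2 (I := {a, b}) rfl hab hal hbl hzl
      have := (key (insert z {a, b}) (by rintro w (rfl | rfl | rfl); exacts [hz, ha, hb])).2
        (by simpa using hins)
      rw [encard_insert_of_notMem (by simp [hza, hzb]), encard_pair hab] at this
      exact absurd this (by norm_num)
    have := (encard_le_encard hsub).trans (hl l)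
    rw [← (toFinite E').cast_ncard_eq] at this
    have : E'.ncard ≤ q + 1 := by exact_mod_cast this
    omega
  · -- the elements of E' are on different lines through c
    have hcE : c ∉ E' := fun h => hdisj c h rfl
    have hne : ∀ a ∈ E', c ≠ a := fun a ha h => hcE (h ▸ ha)
    have hneL : Nonempty L := by
      obtain ⟨a, ha⟩ : E'.Nonempty := nonempty_of_ncard_ne_zero (by omega)
      obtain ⟨l, _⟩ := h1 c a (hne a ha)
      exact ⟨l⟩
    choose! f hf using fun (a : P) (ha : a ∈ E') => h1 c a (hne a ha)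
    have hinj : InjOn f E' := by
      intro a ha b hb hfab
      by_contra hab
      have h := (key {a, b} (by rintro z (rfl | rfl); exacts [ha, hb])).1
        (by rw [encard_pair hab]; rfl)
      have hle := h.2 (f a) (by
        rintro z ((rfl | rfl) | rfl)
        · exact (hf _ ha).2
        · exact hfab ▸ (hf _ hb).2
        · exact (hf _ ha).1)
      have hd' : Disjoint ({a, b} : Set P) {c} := by
        rw [Set.disjoint_left]; rintro z (rfl | rfl); exacts [hdisj _ ha, hdisj _ hb]
      rw [encard_union_eq hd', encard_pair hab, encard_singleton] at hle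
      exact absurd hle (by norm_num)
    have himg : f '' E' ⊆ {l | inc c l} := by
      rintro _ ⟨a, ha, rfl⟩; exact (hf a ha).1
    have := (encard_le_encard himg).trans (hd c)
    rw [hinj.encard_image, ← (toFinite E').cast_ncard_eq] at this
    have : E'.ncard ≤ q + 1 := by exact_mod_cast this
    omega

end linear

/-- lines through the points of the linear space, as bit masks -/
def masks : List ℕ :=
  [36318520313864, 37392524313104, 35751446316064, 70471861146113, 70514848572418,
   70660820846596, 149570090959936, 158342564022400, 145153797915392, 281476253876361,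
   281477413601554, 281479850492004, 571814909067280, 580679850004512, 567623419174920,
   1144041874194433, 1131397501288450, 1136895095504900, 2253037842284608, 2254275870855296,
   2252422586081536, 4503599628560465, 4503599627682466, 4503599627965708, 9016137098592776,
   9025067426022416, 9011668235388960, 18021000142668801, 18023745968936962, 18033092488864260,
   36029965804766336, 36031133649209600, 36029621988753984, 72067773110419745, 72077471146573898,
   72062713638944916, 144116309129695248, 144117422549901344, 144115748603707400,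
   288230533455446017, 288230689819656194, 288230454803693572, 576469565878378624,
   576478379453333760, 576465159090901056]

def mk (x : Fin 45) : ℕ := masks.getD x.val 0

def inc (x : Fin 45) (l : Fin 60) : Prop := (mk x).testBit l.val = true

instance (x : Fin 45) (l : Fin 60) : Decidable (inc x l) := by unfold inc; infer_instance

theorem chk : ∀ x y : Fin 45, x ≠ y →
    (mk x &&& mk y = 2 ^ (Nat.log2 (mk x &&& mk y)) ∧ Nat.log2 (mk x &&& mk y) < 60) := by
  decide +kernel

theorem bit_iff {x y : Fin 45} (hxy : x ≠ y) (l : Fin 60) :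
    (inc x l ∧ inc y l) ↔ l.val = Nat.log2 (mk x &&& mk y) := by
  obtain ⟨h, _⟩ := chk x y hxy
  have : (mk x &&& mk y).testBit l.val = decide (Nat.log2 (mk x &&& mk y) = l.val) := by
    conv_lhs => rw [h]
    rw [Nat.testBit_two_pow]
  rw [Nat.testBit_and] at this
  unfold inc
  constructor
  · rintro ⟨ha, hb⟩
    rw [ha, hb] at this
    have := this.symm
    simp at this
    exact this.symm
  · intro hl
    rw [decide_eq_true hl.symm] at this
    simpa using this

theorem H1 : ∀ x y : Fin 45, x ≠ y → ∃ l, inc x l ∧ inc y l := fun x y hxy =>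
  ⟨⟨_, (chk x y hxy).2⟩, (bit_iff hxy _).2 rfl⟩

theorem H2 : ∀ x y : Fin 45, x ≠ y → ∀ l l', inc x l → inc y l → inc x l' → inc y l' → l = l' := by
  intro x y hxy l l' a b c d
  have e1 := (bit_iff hxy l).1 ⟨a, b⟩
  have e2 := (bit_iff hxy l').1 ⟨c, d⟩
  exact Fin.ext (e1.trans e2.symm)

theorem H3 : ∀ l : Fin 60, (Finset.univ.filter fun x => inc x l).card ≤ 7 := by decide +kernel

theorem H4 : ∀ x : Fin 45, (Finset.univ.filter fun l => inc x l).card ≤ 8 := by decide +kernel

theorem H5 : ∀ l : Fin 60, 2 ≤ (Finset.univ.filter fun x => inc x l).card := by decide +kernel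

theorem H6 : ∃ x y z : Fin 45, x ≠ y ∧ x ≠ z ∧ y ≠ z ∧ ∀ l, ¬ (inc x l ∧ inc y l ∧ inc z l) :=
  ⟨0, 1, 3, by decide, by decide, by decide, by decide +kernel⟩

/-- The negated form of Q1: some simple rank-`r` matroid in `U(q)` has more than
`[r choose k]_q` flats of rank `k`, with `2 ≤ k ≤ r - 1`. -/
theorem result : ∃ (q r k : ℕ) (α : Type) (M : Matroid α), 1 ≤ q ∧ M.Finite ∧ IsSimple M ∧
    M.eRank = r ∧ InU q M ∧ 2 ≤ k ∧ k ≤ r - 1 ∧
    gaussBinom q r k < ({F : Set α | M.IsFlat F ∧ M.eRk F = k}.ncard : ℚ) := by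
  refine ⟨7, 3, 2, Fin 45, mat inc H1 H2, by norm_num, ?_, mat_simple _ _ _,
    mat_rank _ _ _ H6, ?_, le_rfl, by norm_num, ?_⟩
  · exact ⟨toFinite _⟩
  · refine mat_inU inc H1 H2 7 (by norm_num) (fun l => ?_) (fun x => ?_)
    · have h := H3 l
      have : pts inc l = ((Finset.univ.filter fun x => inc x l : Finset (Fin 45)) : Set (Fin 45)) := by
        ext x; simp [pts]
      rw [this, encard_coe_eq_coe_finsetCard]
      exact_mod_cast h.trans (by norm_num)
    · have h := H4 x
      have : {l | inc x l} = ((Finset.univ.filter fun l => inc x l : Finset (Fin 60)) :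
          Set (Fin 60)) := by
        ext l; simp
      rw [this, encard_coe_eq_coe_finsetCard]
      exact_mod_cast h
  · have h57 : gaussBinom 7 3 2 = 57 := by
      unfold gaussBinom
      norm_num [Finset.prod_range_succ]
    have two : ∀ l : Fin 60, ∃ x y, x ≠ y ∧ inc x l ∧ inc y l := by
      intro l
      obtain ⟨x, hx, y, hy, hxy⟩ := Finset.one_lt_card.1 (lt_of_lt_of_le one_lt_two (H5 l))
      simp only [Finset.mem_filter, Finset.mem_univ, true_and] at hx hy
      exact ⟨x, y, hxy, hx, hy⟩
    have hinj : Function.Injective (fun l : Fin 60 => pts inc l) := by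
      intro l l' hll
      obtain ⟨x, y, hxy, hx, hy⟩ := two l
      have hll' : pts inc l = pts inc l' := hll
      have hx' : x ∈ pts inc l' := by rw [← hll']; exact hx
      have hy' : y ∈ pts inc l' := by rw [← hll']; exact hy
      exact H2 x y hxy l l' hx hy hx' hy'
    have h60 : 60 ≤ {F : Set (Fin 45) | (mat inc H1 H2).IsFlat F ∧
        (mat inc H1 H2).eRk F = (2 : ℕ)}.ncard := by
      have hsub : range (fun l : Fin 60 => pts inc l) ⊆
          {F : Set (Fin 45) | (mat inc H1 H2).IsFlat F ∧ (mat inc H1 H2).eRk F = (2 : ℕ)} := by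
        rintro _ ⟨l, rfl⟩
        exact mat_flat inc H1 H2 l (two l)
      have hr : (range (fun l : Fin 60 => pts inc l)).ncard = 60 := by
        rw [← image_univ, ncard_image_of_injective _ hinj, ncard_univ]
        simp
      exact hr.symm.le.trans (ncard_le_ncard hsub (toFinite _))
    rw [h57]
    calc (57 : ℚ) < (60 : ℕ) := by norm_num
      _ ≤ _ := by exact_mod_cast h60

end Pool.Agent.Results.MP_62a602_co.BakerFlats
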